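import Pool.Agent.helper70.RK.Spec

set_option autoImplicit false

namespace RK

open QS (Lef EAb)
open LEQ (Stb Nz XS Ls Mb FS mem_FS)

theorem R2_cj {G : Type} [Group G] (g : G) (S : Subgroup G) : Cj g⁻¹ (Cj g S) = S := by
  ext x
  rw [mem_Cj, mem_Cj]
  have e : g⁻¹ * (g⁻¹⁻¹ * x * g⁻¹) * g = x := by group
  rw [e]

theorem R2_cj' {G : Type} [Group G] (g : G) (S : Subgroup G) : Cj g (Cj g⁻¹ S) = S := by
  have h := R2_cj g⁻¹ S
  rw [inv_inv] at h
  exact h

theorem R2_mono {G : Type} [Group G] (g : G) {S T : Subgroup G} (h : S ≤ T) : Cj g S ≤ Cj g T := by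
  intro x hx
  rw [mem_Cj] at hx ⊢
  exact h hx

theorem R2_lt {G : Type} [Group G] (g : G) {S T : Subgroup G} (h : S < T) : Cj g S < Cj g T := by
  refine lt_of_le_of_ne (R2_mono g h.le) ?_
  intro e
  apply h.ne
  rw [← R2_cj g S, e, R2_cj]

theorem R2_card {G : Type} [Group G] (g : G) (S : Subgroup G) : Nat.card (Cj g S) = Nat.card S := by
  unfold Cj
  exact (Nat.card_congr (S.equivMapOfInjective _ (MulAut.conj g).injective).toEquiv).symm

theorem R2_ver {G : Type} [Group G] (p : ℕ) (g : G) (E : Subgroup G) (h : E ≠ ⊥ ∧ EAb p E) :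
    Cj g E ≠ ⊥ ∧ EAb p (Cj g E) := by
  obtain ⟨h1, h2⟩ := h
  constructor
  · intro e
    apply h1
    rw [← R2_cj g E, e]
    ext x
    rw [mem_Cj, Subgroup.mem_bot, Subgroup.mem_bot]
    constructor
    · intro h
      have : x = g⁻¹ * (g⁻¹⁻¹ * x * g⁻¹) * g := by group
      rw [this, h]
      group
    · rintro rfl
      group
  · refine And.symm ⟨?_, ?_⟩
    · intro x hx
      rw [mem_Cj] at hx
      have h3 := h2.2 _ hx
      have e : (g⁻¹ * x * g) ^ p = g⁻¹ * x ^ p * g := by
        have := conj_pow (i := p) (a := g⁻¹) (b := x)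
        rw [inv_inv] at this
        exact this
      rw [e] at h3
      have : x ^ p = g * (g⁻¹ * x ^ p * g) * g⁻¹ := by group
      rw [this, h3]
      group
    · intro x hx y hy
      rw [mem_Cj] at hx hy
      have h3 := h2.1 _ hx _ hy
      have e1 : x * y = g * ((g⁻¹ * x * g) * (g⁻¹ * y * g)) * g⁻¹ := by group
      have e2 : y * x = g * ((g⁻¹ * y * g) * (g⁻¹ * x * g)) * g⁻¹ := by group
      rw [e1, e2, h3]

/-- Conjugation of the vertices. -/
def R2_s {C : Type} [Group C] (p : ℕ) (g : C) : Equiv.Perm (Ver p C) where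
  toFun E := ⟨Cj g E.1, R2_ver p g E.1 E.2⟩
  invFun E := ⟨Cj g⁻¹ E.1, R2_ver p g⁻¹ E.1 E.2⟩
  left_inv E := Subtype.ext (R2_cj g E.1)
  right_inv E := Subtype.ext (R2_cj' g E.1)

theorem R2_pg {G : Type} [Group G] (p : ℕ) (E : Subgroup G) (h : EAb p E) : IsPGroup p E := by
  intro x
  refine ⟨1, ?_⟩
  rw [pow_one]
  apply Subtype.ext
  exact h.2 x.1 x.2

theorem R2 (hTRE : TRE_stmt) (hR2A : R2A_stmt) (hTRR : TRR_stmt) (hSBN : SBN_stmt) : R2_stmt := by
  intro C _ _ p hp hR hO hL
  haveI : Fact p.Prime := ⟨hp⟩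
  have h1 := hR2A C p hp hR
  rw [hL] at h1
  have hT := hTRR C p hp hR (by linarith)
  haveI : Finite (Ver p C) := inferInstanceAs (Finite {E : Subgroup C // E ≠ ⊥ ∧ EAb p E})
  classical
  have hlt : ∀ E F : Ver p C, E.1 < F.1 → Nat.card E.1 = p ∧ Nat.card F.1 ≠ p := by
    intro E F h
    obtain ⟨j, hj⟩ := (IsPGroup.iff_card.1 (R2_pg p E.1 E.2.2))
    obtain ⟨k, hk⟩ := (IsPGroup.iff_card.1 (R2_pg p F.1 F.2.2))
    have hF := hR F.1 F.2.2
    have hcard : Nat.card E.1 < Nat.card F.1 := by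
      refine lt_of_le_of_ne (Subgroup.card_le_of_le h.le) ?_
      intro e
      exact h.ne (Subgroup.eq_of_le_of_card_ge h.le e.ge)
    have hj0 : j ≠ 0 := by
      intro h0
      rw [h0, pow_zero] at hj
      exact E.2.1 (Subgroup.card_eq_one.1 hj)
    rw [hj, hk] at hcard
    rw [hk] at hF
    have hk2 : k ≤ 2 := (Nat.pow_le_pow_iff_right hp.one_lt).1 hF
    have hjk : j < k := (Nat.pow_lt_pow_iff_right hp.one_lt).1 hcard
    have hj1 : j = 1 := by omega
    have hk22 : k = 2 := by omega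
    subst hj1 hk22
    refine ⟨by rw [hj, pow_one], ?_⟩
    rw [hk]
    intro e
    have h2 : p ^ 1 < p ^ 2 := Nat.pow_lt_pow_right hp.one_lt (by norm_num)
    rw [pow_one] at h2
    omega
  obtain ⟨v, hv⟩ := hTRE (Ver p C) (Gr p C) hT (fun E => decide (Nat.card E.1 = p)) (by
    intro E F hEF e
    rcases hEF with h | h
    · obtain ⟨a1, a2⟩ := hlt E F h
      have e1 : decide (Nat.card E.1 = p) = true := decide_eq_true a1
      have e2 : decide (Nat.card F.1 = p) = false := decide_eq_false a2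
      rw [e1, e2] at e
      exact Bool.noConfusion e
    · obtain ⟨a1, a2⟩ := hlt F E h
      have e1 : decide (Nat.card F.1 = p) = true := decide_eq_true a1
      have e2 : decide (Nat.card E.1 = p) = false := decide_eq_false a2
      rw [e1, e2] at e
      exact Bool.noConfusion e)
  have hfix : ∀ g : C, Cj g v.1 = v.1 := by
    intro g
    have h2 := hv (R2_s p g) (by
      intro a b hab
      rcases hab with h | h
      · exact Or.inl (R2_lt g h)
      · exact Or.inr (R2_lt g h)) (by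
      intro a
      show decide (Nat.card (Cj g a.1) = p) = decide (Nat.card a.1 = p)
      rw [R2_card])
    exact congrArg Subtype.val h2
  have hN : (v.1).Normal := by
    constructor
    intro x hx g
    have h3 := hfix g
    rw [← h3, mem_Cj]
    have e : g⁻¹ * (g * x * g⁻¹) * g = x := by group
    rw [e]
    exact hx
  exact v.2.1 (hO v.1 hN (R2_pg p v.1 v.2.2))

end RK
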