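import Pool.Agent.helper70.RK.Spec

set_option autoImplicit false

namespace RK

open QS (Lef EAb)
open LEQ (Stb Nz XS Ls Mb FS mem_FS)

theorem SBN_zp {G : Type} [Group G] [Finite G] {p : ℕ} (hp : p.Prime) {F : Subgroup G}
    (hF : Nat.card F = p) {x : G} (hx : x ∈ F) (h1 : x ≠ 1) (h2 : x ^ p = 1) :
    Subgroup.zpowers x = F := by
  have : Fact p.Prime := ⟨hp⟩
  have h3 : Nat.card (Subgroup.zpowers x) = p := by
    rw [Nat.card_zpowers]
    exact orderOf_eq_prime h2 h1
  apply Subgroup.eq_of_le_of_card_ge
  · rw [Subgroup.zpowers_le]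
    exact hx
  · rw [h3, hF]

theorem SBN_card {G : Type} [Group G] [Fintype G] [DecidableEq G] (F : Subgroup G)
    [DecidablePred (· ∈ F)] :
    ((Finset.univ.filter (fun x : G => x ∈ F)).erase 1).card = Nat.card F - 1 := by
  rw [Finset.card_erase_of_mem (by rw [Finset.mem_filter]; exact ⟨Finset.mem_univ _, F.one_mem⟩)]
  have : (Finset.univ.filter (fun x : G => x ∈ F)).card = Nat.card F := by
    rw [Nat.card_eq_fintype_card, Fintype.card_subtype]
  rw [this]

theorem SBN : SBN_stmt := by
  classical
  intro G _ _ p hp E hE hc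
  have : Fintype G := Fintype.ofFinite G
  constructor
  · have h1 := Finset.card_eq_sum_card_fiberwise
      (s := (Finset.univ.filter (fun x : G => x ∈ E)).erase 1)
      (t := FS (fun F : Subgroup G => F ≤ E ∧ Nat.card F = p))
      (f := fun x : G => Subgroup.zpowers x) (by
        intro x hx
        rw [Finset.mem_coe, Finset.mem_erase, Finset.mem_filter] at hx
        rw [Finset.mem_coe, mem_FS]
        refine ⟨?_, ?_⟩
        · rw [Subgroup.zpowers_le]
          exact hx.2.2
        · rw [Nat.card_zpowers]
          have : Fact p.Prime := ⟨hp⟩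
          exact orderOf_eq_prime (hE.2 x hx.2.2) hx.1)
    rw [SBN_card, hc, Finset.sum_congr rfl (g := fun _ => p - 1)] at h1
    · rw [Finset.sum_const, smul_eq_mul] at h1
      have h2 : p ^ 2 - 1 = (p + 1) * (p - 1) := by
        have := Nat.sq_sub_sq p 1
        rw [one_pow] at this
        exact this
      rw [h2] at h1
      have h3 : 0 < p - 1 := by have := hp.two_le; omega
      exact (Nat.eq_of_mul_eq_mul_right h3 h1).symm
    · intro F hF
      rw [mem_FS] at hF
      have e : (((Finset.univ.filter (fun x : G => x ∈ E)).erase 1).filter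
          (fun x => Subgroup.zpowers x = F)) = (Finset.univ.filter (fun x : G => x ∈ F)).erase 1 := by
        ext x
        rw [Finset.mem_filter, Finset.mem_erase, Finset.mem_filter, Finset.mem_erase,
          Finset.mem_filter]
        constructor
        · rintro ⟨⟨h4, _, h5⟩, h6⟩
          refine ⟨h4, Finset.mem_univ _, ?_⟩
          rw [← h6]
          exact Subgroup.mem_zpowers x
        · rintro ⟨h4, _, h5⟩
          exact ⟨⟨h4, Finset.mem_univ _, hF.1 h5⟩, SBN_zp hp hF.2 h5 h4 (hE.2 x (hF.1 h5))⟩
      rw [e, SBN_card, hF.2]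
  · intro F hF h1 h2
    have h3 : Nat.card F ∣ p ^ 2 := by
      rw [← hc]
      exact Subgroup.card_dvd_of_le hF
    obtain ⟨k, hk, hk2⟩ := (Nat.dvd_prime_pow hp).1 h3
    have hk0 : k ≠ 0 := by
      rintro rfl
      rw [pow_zero] at hk2
      exact h1 (Subgroup.card_eq_one.1 hk2)
    have hk3 : k ≠ 2 := by
      rintro rfl
      apply h2
      apply Subgroup.eq_of_le_of_card_ge hF
      rw [hc, hk2]
    have : k = 1 := by omega
    rw [hk2, this, pow_one]

end RK
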